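import Pool.Agent.Hhelper93.CLow2.Node
import Pool.Agent.Hhelper93.CMono.Ray

/-!
# The drawing
-/

set_option autoImplicit false

namespace Pool.Agent.CLow2

open Set
open Pool.Agent.CMono Pool.Agent.CLow

/-- The arcs `S` and `T` cross properly at `z`: over a small interval `x ≤ s ≤ y` of directions from
`O` both have a point; they have the common point `z` in the direction `m`, before it `S` is nearer
to `O` than `T`, behind it `T` is nearer than `S`. -/
def CrossAt (O : ℂ) (S T : Set ℂ) (z : ℂ) : Prop :=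
  ∃ (x m y : ℝ) (ρ σ : ℝ → ℝ), x < m ∧ m < y ∧ ContinuousOn ρ (Icc x y) ∧
    ContinuousOn σ (Icc x y) ∧
    (∀ s ∈ Icc x y, 0 < ρ s ∧ 0 < σ s ∧ O + (ρ s : ℂ) * Complex.exp (s * Complex.I) ∈ S ∧
      O + (σ s : ℂ) * Complex.exp (s * Complex.I) ∈ T) ∧
    z = O + (ρ m : ℂ) * Complex.exp (m * Complex.I) ∧ ρ m = σ m ∧
    (∀ s ∈ Ico x m, ρ s < σ s) ∧ (∀ s ∈ Ioc m y, σ s < ρ s)

/-- A topological graph in the sense of the problem: the vertices are different points, and
(a) an edge meets no other vertex, (b) two edges have finitely many common points, (c) no point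
which is not a vertex lies on three edges, (d) at every common point which is not a vertex the two
edges cross properly. -/
structure TopGraph {V : Type} (G : SimpleGraph V) (O : ℂ) (pos : V → ℂ)
    (arc : Sym2 V → Set ℂ) : Prop where
  inj : Function.Injective pos
  avoid : ∀ e ∈ G.edgeSet, ∀ w, pos w ∈ arc e → w ∈ e
  finite : ∀ e ∈ G.edgeSet, ∀ f ∈ G.edgeSet, e ≠ f → (arc e ∩ arc f).Finite
  triple : ∀ e ∈ G.edgeSet, ∀ f ∈ G.edgeSet, ∀ g ∈ G.edgeSet, e ≠ f → f ≠ g → e ≠ g →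
    ∀ z, z ∈ arc e → z ∈ arc f → z ∈ arc g → ∃ w, z = pos w
  proper : ∀ e ∈ G.edgeSet, ∀ f ∈ G.edgeSet, e ≠ f → ∀ z, z ∈ arc e → z ∈ arc f →
    (∃ w, z = pos w) ∨ CrossAt O (arc e) (arc f) z ∨ CrossAt O (arc f) (arc e) z

/-- The angle of the parameter `u`. -/
noncomputable def ang (K : ℕ) (u : ℝ) : ℝ := u * (2 * Real.pi / per K)

/-- The radial function of an edge. -/
noncomputable def rho (K : ℕ) (e : ℕ × ℕ) (s : ℝ) : ℝ :=
  Real.exp (pl (nd K e) (s / (2 * Real.pi / per K)))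

/-- The unit of angle is positive. -/
theorem unit_pos (K : ℕ) : 0 < 2 * Real.pi / per K := by
  have := per_pos K
  have : (0 : ℝ) < per K := by exact_mod_cast this
  have := Real.pi_pos
  positivity

theorem ang_per (K : ℕ) : ang K (per K) = 2 * Real.pi := by
  have := per_pos K
  have : (0 : ℝ) < per K := by exact_mod_cast this
  unfold ang
  field_simp

theorem ang_add (K : ℕ) (u v : ℝ) : ang K (u + v) = ang K u + ang K v := by
  unfold ang; ring

theorem ang_lt {K : ℕ} {u v : ℝ} : ang K u < ang K v ↔ u < v := by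
  unfold ang
  exact mul_lt_mul_iff_left₀ (unit_pos K)

theorem ang_le {K : ℕ} {u v : ℝ} : ang K u ≤ ang K v ↔ u ≤ v := by
  unfold ang
  exact mul_le_mul_iff_left₀ (unit_pos K)

theorem rho_ang (K : ℕ) (e : ℕ × ℕ) (u : ℝ) : rho K e (ang K u) = Real.exp (pl (nd K e) u) := by
  unfold rho ang
  rw [mul_div_cancel_right₀ _ (unit_pos K).ne']

theorem exists_ang (K : ℕ) (s : ℝ) : ∃ u, s = ang K u := by
  refine ⟨s / (2 * Real.pi / per K), ?_⟩
  unfold ang
  rw [div_mul_cancel₀ _ (unit_pos K).ne']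

theorem rho_cont (K : ℕ) (e : ℕ × ℕ) : Continuous (rho K e) := by
  unfold rho
  exact Real.continuous_exp.comp ((pl_cont _).comp (continuous_id.div_const _))

theorem rho_pos (K : ℕ) (e : ℕ × ℕ) (s : ℝ) : 0 < rho K e s := Real.exp_pos _

/-- The point of the edge `e` at the parameter `u`. -/
noncomputable def pnt (K : ℕ) (e : ℕ × ℕ) (s : ℝ) : ℂ :=
  (0 : ℂ) + (rho K e s : ℂ) * Complex.exp (s * Complex.I)

/-- The arc. -/
noncomputable def Arc (K : ℕ) (e : ℕ × ℕ) : Set ℂ :=
  (fun s : ℝ => (0 : ℂ) + (rho K e s : ℂ) * Complex.exp (s * Complex.I)) ''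
    Icc (ang K (2 * e.2)) (ang K (2 * e.1 + 1 + per K))

/-- The vertices. -/
abbrev Vt (K : ℕ) : Type := Fin (nn K) ⊕ Fin (nn K)

/-- The positions of the vertices. -/
noncomputable def vp (K : ℕ) : Vt K → ℂ
  | Sum.inl a => (0 : ℂ) + ((Real.exp ((big K + 1) ^ (nn K * (a : ℕ)) : ℕ) : ℝ) : ℂ) *
      Complex.exp ((ang K (2 * (a : ℕ) + 1) : ℝ) * Complex.I)
  | Sum.inr b => (0 : ℂ) + ((Real.exp (2 ^ (nn K * nn K) : ℕ) : ℝ) : ℂ) *
      Complex.exp ((ang K (2 * (b : ℕ)) : ℝ) * Complex.I)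

theorem exp_per (K : ℕ) (u : ℝ) (k : ℤ) : Complex.exp ((ang K (u + k * per K) : ℝ) * Complex.I) =
    Complex.exp ((ang K u : ℝ) * Complex.I) := by
  have h : ang K (u + k * per K) = ang K u + k * (2 * Real.pi) := by
    rw [← ang_per K]; unfold ang; ring
  rw [Complex.exp_eq_exp_iff_exists_int]
  refine ⟨k, ?_⟩
  rw [h]
  push_cast
  ring

theorem rho_per (K : ℕ) (e : ℕ × ℕ) (u : ℝ) (k : ℤ) :
    rho K e (ang K (u + k * per K)) = rho K e (ang K u) := by
  rw [rho_ang, rho_ang]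
  have := pl_period' (v := nd K e) (P := (per K : ℤ)) (nd_period K e) u k
  push_cast at this
  rw [this]

/-- Polar coordinates modulo the period. -/
theorem polar_mod {K : ℕ} {r r' u u' : ℝ} (hr : 0 < r) (hr' : 0 < r')
    (h : (0 : ℂ) + (r : ℂ) * Complex.exp ((ang K u : ℝ) * Complex.I) =
      (0 : ℂ) + (r' : ℂ) * Complex.exp ((ang K u' : ℝ) * Complex.I)) :
    r = r' ∧ ∃ k : ℤ, u = u' + k * per K := by
  have h1 := add_left_cancel h
  have hn := congrArg norm h1
  rw [norm_mul, norm_mul, Complex.norm_exp_ofReal_mul_I, Complex.norm_exp_ofReal_mul_I, mul_one,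
    mul_one, Complex.norm_real, Complex.norm_real, Real.norm_of_nonneg hr.le,
    Real.norm_of_nonneg hr'.le] at hn
  subst hn
  refine ⟨rfl, ?_⟩
  have hr0 : (r : ℂ) ≠ 0 := by exact_mod_cast hr.ne'
  have h2 := mul_left_cancel₀ hr0 h1
  rw [Complex.exp_eq_exp_iff_exists_int] at h2
  obtain ⟨n, hn⟩ := h2
  refine ⟨n, ?_⟩
  have h3 : ang K u = ang K u' + n * (2 * Real.pi) := by
    have h4 : ((ang K u : ℝ) : ℂ) * Complex.I =
        (((ang K u' : ℝ) : ℂ) + n * (2 * Real.pi)) * Complex.I := by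
      rw [hn]; ring
    have h5 := mul_right_cancel₀ Complex.I_ne_zero h4
    exact_mod_cast h5
  rw [← ang_per K] at h3
  have h4 : ang K u = ang K (u' + n * per K) := by
    rw [h3]; unfold ang; ring
  unfold ang at h4
  exact mul_right_cancel₀ (unit_pos K).ne' h4

theorem val_left {K a b : ℕ} (h : Ed K a b) :
    val K (a, b) (2 * a + 1) = (big K + 1) ^ (nn K * a) := by
  unfold val bs
  rw [if_neg (by omega), hgt_left h]

theorem val_right {K a b : ℕ} (h : Ed K a b) :
    val K (a, b) (2 * b) = 2 ^ (nn K * nn K) := by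
  unfold val bs
  rw [if_pos (by omega), hgt_right h]

/-- Two edges with a common left vertex. -/
theorem arc_row {K a b b' : ℕ} (h : Ed K a b) (h' : Ed K a b') (hb : b < b') {z : ℂ}
    (hz : z ∈ Arc K (a, b)) (hz' : z ∈ Arc K (a, b')) :
    z = (0 : ℂ) + ((Real.exp ((big K + 1) ^ (nn K * a) : ℕ) : ℝ) : ℂ) *
      Complex.exp ((ang K (2 * a + 1) : ℝ) * Complex.I) := by
  obtain ⟨s, hs, rfl⟩ := hz
  obtain ⟨s', hs', he⟩ := hz'
  obtain ⟨u, rfl⟩ := exists_ang K s
  obtain ⟨u', rfl⟩ := exists_ang K s'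
  simp only [Set.mem_Icc, ang_le] at hs hs'
  obtain ⟨hr, k, hk⟩ := polar_mod (rho_pos K _ _) (rho_pos K _ _) he
  have hbn : b' < nn K := h'.lt'
  have hab := h.lt
  have hper : 2 * nn K < per K := by unfold per; omega
  have hk0 : k = 0 := by
    have c1 : (2 * b' : ℝ) ≤ u' := hs'.1
    have c2 : u' ≤ 2 * a + 1 + per K := hs'.2
    have c3 : (2 * b : ℝ) ≤ u := hs.1
    have c4 : u ≤ 2 * a + 1 + per K := hs.2
    have c5 : (a : ℝ) + 1 ≤ b := by exact_mod_cast hab
    have c6 : (b : ℝ) + 1 ≤ b' := by exact_mod_cast hb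
    have c7 : (0 : ℝ) < per K := by exact_mod_cast per_pos K
    have c8 : (k : ℝ) * per K < 1 * per K := by linarith
    have c9 : (-1 : ℝ) * per K < k * per K := by linarith
    have d1 : (k : ℝ) < 1 := lt_of_mul_lt_mul_right c8 c7.le
    have d2 : (-1 : ℝ) < k := lt_of_mul_lt_mul_right c9 c7.le
    have d3 : k < 1 := by exact_mod_cast d1
    have d4 : -1 < k := by exact_mod_cast d2
    omega
  subst hk0
  have huu : u' = u := by simpa using hk
  subst huu
  rw [rho_ang, rho_ang] at hr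
  have hpl : pl (nd K (a, b)) u' = pl (nd K (a, b')) u' := (Real.exp_injective hr).symm
  have hu := pl_eq_imp (x := 2 * b') (y := 2 * a + 1 + per K) (j0 := 2 * a + 1 + per K)
    (by push_cast; exact hs'.1) (by push_cast; exact hs'.2) (by
      intro j hj1 hj2 hj3
      obtain ⟨r, hr1, hr2, hr3⟩ := nd_res K (j := j) (by omega) (by omega)
      rw [hr3, hr3]
      have := val_lt (hgt_row h h' hb (r := r) (by omega) (by omega))
      exact_mod_cast this) (by
      have e1 := nd_nat' K (a, b) (r := 2 * a + 1) (by omega)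
      have e2 := nd_nat' K (a, b') (r := 2 * a + 1) (by omega)
      push_cast at e1 e2
      rw [e1, e2, val_left h, val_left h']) hpl
  have hu' : u' = (2 * a + 1 : ℝ) + ((1 : ℤ) : ℝ) * per K := by
    rw [hu]; push_cast; ring
  beta_reduce
  rw [hu', exp_per, rho_per, rho_ang]
  have e3 : (2 * (a : ℝ) + 1) = ((2 * a + 1 : ℕ) : ℝ) := by push_cast; ring
  rw [e3, pl_nat, nd_nat K _ (by omega), val_left h]

/-- Two edges with a common right vertex. -/
theorem arc_col {K a a' b : ℕ} (h : Ed K a b) (h' : Ed K a' b) (ha : a < a') {z : ℂ}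
    (hz : z ∈ Arc K (a, b)) (hz' : z ∈ Arc K (a', b)) :
    z = (0 : ℂ) + ((Real.exp (2 ^ (nn K * nn K) : ℕ) : ℝ) : ℂ) *
      Complex.exp ((ang K (2 * b) : ℝ) * Complex.I) := by
  obtain ⟨s, hs, rfl⟩ := hz
  obtain ⟨s', hs', he⟩ := hz'
  obtain ⟨u, rfl⟩ := exists_ang K s
  obtain ⟨u', rfl⟩ := exists_ang K s'
  simp only [Set.mem_Icc, ang_le] at hs hs'
  obtain ⟨hr, k, hk⟩ := polar_mod (rho_pos K _ _) (rho_pos K _ _) he
  have hbn : b < nn K := h'.lt'
  have hab := h.lt
  have hab' := h'.lt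
  have hper : 2 * nn K < per K := by unfold per; omega
  have hk0 : k = 0 := by
    have c1 : (2 * b : ℝ) ≤ u' := hs'.1
    have c2 : u' ≤ 2 * a' + 1 + per K := hs'.2
    have c3 : (2 * b : ℝ) ≤ u := hs.1
    have c4 : u ≤ 2 * a + 1 + per K := hs.2
    have c5 : (a : ℝ) + 1 ≤ b := by exact_mod_cast hab
    have c6 : (a' : ℝ) + 1 ≤ b := by exact_mod_cast hab'
    have c7 : (0 : ℝ) < per K := by exact_mod_cast per_pos K
    have c8 : (k : ℝ) * per K < 1 * per K := by linarith
    have c9 : (-1 : ℝ) * per K < k * per K := by linarith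
    have d1 : (k : ℝ) < 1 := lt_of_mul_lt_mul_right c8 c7.le
    have d2 : (-1 : ℝ) < k := lt_of_mul_lt_mul_right c9 c7.le
    have d3 : k < 1 := by exact_mod_cast d1
    have d4 : -1 < k := by exact_mod_cast d2
    omega
  subst hk0
  have huu : u' = u := by simpa using hk
  subst huu
  rw [rho_ang, rho_ang] at hr
  have hpl : pl (nd K (a, b)) u' = pl (nd K (a', b)) u' := (Real.exp_injective hr).symm
  have hu := pl_eq_imp (x := 2 * b) (y := 2 * a + 1 + per K) (j0 := 2 * b)
    (by push_cast; exact hs.1) (by push_cast; exact hs.2) (by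
      intro j hj1 hj2 hj3
      obtain ⟨r, hr1, hr2, hr3⟩ := nd_res K (j := j) (by omega) (by omega)
      rw [hr3, hr3]
      have := val_lt (hgt_col h h' ha (r := r) (by omega))
      exact_mod_cast this) (by
      have e1 := nd_nat K (a, b) (r := 2 * b) (by omega)
      have e2 := nd_nat K (a', b) (r := 2 * b) (by omega)
      push_cast at e1 e2
      rw [e1, e2, val_right h, val_right h']) hpl
  have hu' : u' = ((2 * b : ℕ) : ℝ) := by
    rw [hu]; push_cast; ring
  beta_reduce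
  rw [hu', rho_ang, pl_nat, nd_nat K _ (by omega), val_right h]
  push_cast
  rfl

end Pool.Agent.CLow2
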