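import Pool.Agent.Hhelper93.CLow2.Draw

/-!
# The lower bound
-/

set_option autoImplicit false

namespace Pool.Agent.CLow2

open Set
open Pool.Agent.CMono Pool.Agent.CLow

/-- The graph. -/
def Gr (K : ℕ) : SimpleGraph (Vt K) where
  Adj x y := match x, y with
    | Sum.inl a, Sum.inr b => Ed K a b
    | Sum.inr b, Sum.inl a => Ed K a b
    | _, _ => False
  symm := ⟨by
    intro x y h
    rcases x with a | b <;> rcases y with c | d <;> exact h⟩
  loopless := ⟨by
    intro x h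
    rcases x with a | b <;> exact h⟩

/-- The pair of numbers of an edge. -/
def pr {K : ℕ} : Sym2 (Vt K) → ℕ × ℕ :=
  Sym2.lift ⟨fun x y => match x, y with
    | Sum.inl a, Sum.inr b => ((a : ℕ), (b : ℕ))
    | Sum.inr b, Sum.inl a => ((a : ℕ), (b : ℕ))
    | _, _ => (0, 0), by
      intro x y
      rcases x with a | b <;> rcases y with c | d <;> rfl⟩

theorem pr_mk {K : ℕ} (a b : Fin (nn K)) :
    pr (s(Sum.inl a, Sum.inr b) : Sym2 (Vt K)) = ((a : ℕ), (b : ℕ)) := rfl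

theorem mem_edge {K : ℕ} {e : Sym2 (Vt K)} : e ∈ (Gr K).edgeSet ↔
    ∃ a b : Fin (nn K), e = s(Sum.inl a, Sum.inr b) ∧ Ed K a b := by
  constructor
  · induction e using Sym2.ind with
    | _ x y =>
      intro h
      rw [SimpleGraph.mem_edgeSet] at h
      rcases x with a | b <;> rcases y with c | d
      · exact h.elim
      · exact ⟨a, d, rfl, h⟩
      · exact ⟨c, b, Sym2.eq_swap, h⟩
      · exact h.elim
  · rintro ⟨a, b, rfl, h⟩
    exact h

theorem nn_lt_per (K : ℕ) : 2 * nn K < per K := by unfold per; omega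

theorem right_end {K a b : ℕ} (h : Ed K a b) :
    (0 : ℂ) + ((Real.exp (2 ^ (nn K * nn K) : ℕ) : ℝ) : ℂ) *
      Complex.exp ((ang K (2 * b) : ℝ) * Complex.I) =
    (0 : ℂ) + (rho K (a, b) (ang K (2 * b)) : ℂ) *
      Complex.exp ((ang K (2 * b) : ℝ) * Complex.I) := by
  have hb : b < nn K := h.lt'
  have hp := nn_lt_per K
  have e3 : (2 * (b : ℝ)) = ((2 * b : ℕ) : ℝ) := by push_cast; ring
  rw [rho_ang, e3, pl_nat, nd_nat K _ (by omega), val_right h]

theorem left_end {K a b : ℕ} (h : Ed K a b) :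
    (0 : ℂ) + ((Real.exp ((big K + 1) ^ (nn K * a) : ℕ) : ℝ) : ℂ) *
      Complex.exp ((ang K (2 * a + 1) : ℝ) * Complex.I) =
    (0 : ℂ) + (rho K (a, b) (ang K (2 * a + 1 + per K)) : ℂ) *
      Complex.exp ((ang K (2 * a + 1 + per K) : ℝ) * Complex.I) := by
  have hb : b < nn K := h.lt'
  have ha := h.lt
  have hp := nn_lt_per K
  have e2 : (2 * (a : ℝ) + 1 + per K) = (2 * (a : ℝ) + 1) + ((1 : ℤ) : ℝ) * per K := by
    push_cast; ring
  have e3 : (2 * (a : ℝ) + 1) = ((2 * a + 1 : ℕ) : ℝ) := by push_cast; ring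
  rw [e2, exp_per, rho_per, rho_ang, e3, pl_nat, nd_nat K _ (by omega), val_left h]

theorem range_lt {K a b : ℕ} (h : Ed K a b) :
    ang K (2 * b) < ang K (2 * a + 1 + per K) ∧
      ang K (2 * a + 1 + per K) < ang K (2 * b) + 2 * Real.pi := by
  have hb : b < nn K := h.lt'
  have ha := h.lt
  have hp := nn_lt_per K
  rw [← ang_per K, ← ang_add, ang_lt, ang_lt]
  have c1 : (a : ℝ) + 1 ≤ b := by exact_mod_cast ha
  have c2 : (b : ℝ) + 1 ≤ nn K := by exact_mod_cast hb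
  have c3 : (2 : ℝ) * nn K < per K := by exact_mod_cast hp
  have c4 : (0 : ℝ) ≤ a := Nat.cast_nonneg a
  constructor <;> linarith

/-- The drawing is c-monotone. -/
theorem cmon (K : ℕ) : CMonotone (Gr K) 0 (vp K) (fun e => Arc K (pr e))
    (fun e => ang K (2 * (pr e).2)) (fun e => ang K (2 * (pr e).1 + 1 + per K)) where
  span := by
    intro e he
    obtain ⟨a, b, rfl, h⟩ := mem_edge.1 he
    exact range_lt h
  isArc := by
    intro e he
    obtain ⟨a, b, rfl, h⟩ := mem_edge.1 he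
    refine ⟨Sum.inr b, Sum.inl a, Sym2.eq_swap, rho K (a, b), (rho_cont K _).continuousOn,
      fun s _ => rho_pos K _ s, rfl, right_end h, left_end h⟩
  adj := by
    intro e he f hf hef w hwe hwf z hz
    obtain ⟨a, b, rfl, h⟩ := mem_edge.1 he
    obtain ⟨c, d, rfl, h'⟩ := mem_edge.1 hf
    rw [mem_singleton_iff]
    simp only [pr_mk] at hz
    rcases Sym2.mem_iff.1 hwe with rfl | rfl
    · rcases Sym2.mem_iff.1 hwf with h1 | h1
      · have hac : a = c := Sum.inl_injective h1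
        subst hac
        rcases lt_trichotomy (b : ℕ) d with hbd | hbd | hbd
        · exact arc_row h h' hbd hz.1 hz.2
        · exact absurd (by rw [Fin.ext hbd]) hef
        · exact arc_row h' h hbd hz.2 hz.1
      · exact absurd h1 (by simp)
    · rcases Sym2.mem_iff.1 hwf with h1 | h1
      · exact absurd h1 (by simp)
      · have hbd : b = d := Sum.inr_injective h1
        subst hbd
        rcases lt_trichotomy (a : ℕ) c with hac | hac | hac
        · exact arc_col h h' hac hz.1 hz.2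
        · exact absurd (by rw [Fin.ext hac]) hef
        · exact arc_col h' h hac hz.2 hz.1

/-- The edges avoid the other vertices. -/
theorem avoid {K : ℕ} {e : Sym2 (Vt K)} (he : e ∈ (Gr K).edgeSet) (w : Vt K)
    (hw : vp K w ∈ Arc K (pr e)) : w ∈ e := by
  obtain ⟨a, b, rfl, h⟩ := mem_edge.1 he
  rw [pr_mk] at hw
  obtain ⟨s, hs, hz⟩ := hw
  obtain ⟨u, rfl⟩ := exists_ang K s
  have hp := nn_lt_per K
  rcases w with x | y
  · obtain ⟨hr, k, hk⟩ := polar_mod (rho_pos K _ _) (Real.exp_pos _) hz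
    rw [hk, rho_per, rho_ang] at hr
    have e3 : (2 * ((x : ℕ) : ℝ) + 1) = ((2 * (x : ℕ) + 1 : ℕ) : ℝ) := by push_cast; ring
    rw [e3, pl_nat, nd_nat K _ (by omega)] at hr
    have h1 : hgt K (a, b) (2 * x + 1) = nn K * x := by
      have := Real.exp_injective hr
      have h2 : val K (a, b) (2 * x + 1) = (big K + 1) ^ (nn K * x) := by exact_mod_cast this
      have hb : bs K (2 * x + 1) = big K + 1 := by unfold bs; rw [if_neg (by omega)]
      rw [val, hb] at h2
      have h3 := one_lt_bs K (2 * x + 1)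
      rw [hb] at h3
      exact Nat.pow_right_injective h3 h2
    have hx := x.2
    by_cases hxa : (a : ℕ) = x
    · rw [← Fin.ext hxa]
      exact Sym2.mem_mk_left _ _
    · exfalso
      rw [hgt_after hx, if_neg hxa, key] at h1
      have := key_unique (K := K) (x := a) (y := b) (z := x) (w := 0) b.2 (by omega) h1
      have := h.lt
      omega
  · obtain ⟨hr, k, hk⟩ := polar_mod (rho_pos K _ _) (Real.exp_pos _) hz
    rw [hk, rho_per, rho_ang] at hr
    have e3 : (2 * ((y : ℕ) : ℝ)) = ((2 * (y : ℕ) : ℕ) : ℝ) := by push_cast; ring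
    rw [e3, pl_nat, nd_nat K _ (by omega)] at hr
    have h1 : hgt K (a, b) (2 * y) = nn K * nn K := by
      have := Real.exp_injective hr
      have h2 : val K (a, b) (2 * y) = 2 ^ (nn K * nn K) := by exact_mod_cast this
      have hb : bs K (2 * y) = 2 := by unfold bs; rw [if_pos (by omega)]
      rw [val, hb] at h2
      exact Nat.pow_right_injective le_rfl h2
    by_cases hyb : (b : ℕ) = y
    · rw [← Fin.ext hyb]
      exact Sym2.mem_mk_right _ _
    · exfalso
      rw [hgt_pass y.2 hyb] at h1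
      have := key_lt (K := K) (e := (a, b)) h
      omega

/-- The nodes of two edges are different, except for a common vertex. -/
theorem node_ne {K a b c d : ℕ} (h : Ed K a b) (h' : Ed K c d) (hne : (a, b) ≠ (c, d)) {j : ℤ}
    (hj1 : 2 * (b : ℤ) ≤ j) (hj2 : j ≤ 2 * a + 1 + per K) (hj : nd K (a, b) j = nd K (c, d) j) :
    (b = d ∧ j = 2 * b) ∨ (a = c ∧ j = 2 * a + 1 + per K) := by
  have hb : b < nn K := h.lt'
  have ha := h.lt
  have hp := nn_lt_per K
  obtain ⟨r, hr1, hr2, hr3⟩ := nd_res K (j := j) (by omega) (by omega)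
  rw [hr3, hr3] at hj
  have hj' : hgt K (a, b) r = hgt K (c, d) r := val_eq (by exact_mod_cast hj)
  by_contra hcon
  push Not at hcon
  exact hgt_ne h h' hne (by rintro ⟨e1, e2⟩; exact hcon.1 e1 (by omega))
    (by rintro ⟨e1, e2⟩; exact hcon.2 e1 (by omega)) hj'

/-- Two edges have finitely many common points. -/
theorem finite_inter {K a b c d : ℕ} (h : Ed K a b) (h' : Ed K c d) (hne : (a, b) ≠ (c, d)) :
    (Arc K (a, b) ∩ Arc K (c, d)).Finite := by
  have hb : b < nn K := h.lt'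
  have ha := h.lt
  have hp := nn_lt_per K
  have hfin := pl_finite (v := nd K (a, b)) (w := nd K (c, d)) (x := 2 * b)
    (y := 2 * a + 1 + per K) (j0 := if b = d then 2 * b else 2 * a + 1 + per K) (by
      intro j hj1 hj2 hj3 hj
      rcases node_ne h h' hne hj1 hj2 hj with ⟨e1, e2⟩ | ⟨e1, e2⟩
      · rw [if_pos e1] at hj3
        exact hj3 e2
      · have hbd : b ≠ d := by
          rintro rfl
          exact hne (by rw [e1])
        rw [if_neg hbd] at hj3
        exact hj3 e2)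
  refine (hfin.image fun u => (0 : ℂ) + (rho K (a, b) (ang K u) : ℂ) *
    Complex.exp ((ang K u : ℝ) * Complex.I)).subset ?_
  rintro z ⟨⟨s, hs, rfl⟩, s', hs', he⟩
  obtain ⟨u, rfl⟩ := exists_ang K s
  obtain ⟨u', rfl⟩ := exists_ang K s'
  simp only [Set.mem_Icc, ang_le] at hs hs'
  obtain ⟨hr, k, hk⟩ := polar_mod (rho_pos K _ _) (rho_pos K _ _) he
  rw [hk, rho_per, rho_ang, rho_ang] at hr
  exact ⟨u, ⟨by push_cast; exact hs.1, by push_cast; exact hs.2,
    (Real.exp_injective hr).symm⟩, rfl⟩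

/-- The parameter of a common point. -/
theorem common {K c d : ℕ} {e : ℕ × ℕ} {u : ℝ}
    (hz : (0 : ℂ) + (rho K e (ang K u) : ℂ) * Complex.exp ((ang K u : ℝ) * Complex.I) ∈
      Arc K (c, d)) : ∃ k : ℤ, 2 * (d : ℝ) ≤ u + k * per K ∧
        u + k * per K ≤ 2 * c + 1 + per K ∧ pl (nd K e) u = pl (nd K (c, d)) u := by
  obtain ⟨s', hs', he⟩ := hz
  obtain ⟨u', rfl⟩ := exists_ang K s'
  simp only [Set.mem_Icc, ang_le] at hs'
  obtain ⟨hr, k, hk⟩ := polar_mod (rho_pos K _ _) (rho_pos K _ _) he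
  rw [hk, rho_per, rho_ang, rho_ang] at hr
  rw [hk] at hs'
  exact ⟨k, hs'.1, hs'.2, (Real.exp_injective hr).symm⟩

/-- A common point at a node is a vertex. -/
theorem node_vertex {K : ℕ} {a b c d : Fin (nn K)} (h : Ed K a b) (h' : Ed K c d)
    (hne : ((a : ℕ), (b : ℕ)) ≠ ((c : ℕ), (d : ℕ))) {m : ℤ}
    (hm1 : 2 * ((b : ℕ) : ℤ) ≤ m) (hm2 : m ≤ 2 * ((a : ℕ) : ℤ) + 1 + per K)
    (hp : pl (nd K (a, b)) (m : ℝ) = pl (nd K (c, d)) (m : ℝ)) :
    ∃ w, (0 : ℂ) + (rho K (a, b) (ang K (m : ℝ)) : ℂ) *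
      Complex.exp ((ang K (m : ℝ) : ℝ) * Complex.I) = vp K w := by
  rw [pl_int, pl_int] at hp
  rcases node_ne h h' hne hm1 hm2 hp with ⟨-, e2⟩ | ⟨-, e2⟩
  · refine ⟨Sum.inr b, ?_⟩
    rw [e2]
    push_cast
    exact (right_end h).symm
  · refine ⟨Sum.inl a, ?_⟩
    rw [e2]
    push_cast
    exact (left_end h).symm

/-- Bounds for the unit interval of a parameter. -/
theorem unit_bounds {u : ℝ} {x y : ℤ} (hx : (x : ℝ) ≤ u) (hy : u ≤ y) (hu : (⌊u⌋ : ℝ) < u) :
    x ≤ ⌊u⌋ ∧ ⌊u⌋ + 1 ≤ y := by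
  refine ⟨Int.le_floor.2 hx, ?_⟩
  have : (⌊u⌋ : ℝ) < y := hu.trans_le hy
  have : ⌊u⌋ < y := by exact_mod_cast this
  omega

/-- Crossings are proper. -/
theorem proper_cross {K : ℕ} {a b c d : Fin (nn K)} (h : Ed K a b) (h' : Ed K c d)
    (hne : ((a : ℕ), (b : ℕ)) ≠ ((c : ℕ), (d : ℕ))) {z : ℂ} (hz : z ∈ Arc K (a, b))
    (hz' : z ∈ Arc K (c, d)) : (∃ w, z = vp K w) ∨ CrossAt 0 (Arc K (a, b)) (Arc K (c, d)) z ∨
      CrossAt 0 (Arc K (c, d)) (Arc K (a, b)) z := by
  obtain ⟨s, hs, rfl⟩ := hz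
  obtain ⟨u, rfl⟩ := exists_ang K s
  simp only [Set.mem_Icc, ang_le] at hs
  obtain ⟨k, hk1, hk2, hpl⟩ := common hz'
  set m := ⌊u⌋ with hm
  have hm2 : (m : ℝ) ≤ u := Int.floor_le u
  have hm3 : u < m + 1 := Int.lt_floor_add_one u
  rcases hm2.lt_or_eq with hlt | heq
  swap
  · left
    rw [← heq] at hpl hs ⊢
    have g1 : 2 * ((b : ℕ) : ℤ) ≤ m := by
      have := hs.1
      exact_mod_cast this
    have g2 : m ≤ 2 * ((a : ℕ) : ℤ) + 1 + per K := by
      have := hs.2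
      exact_mod_cast this
    obtain ⟨w, hw⟩ := node_vertex h h' hne g1 g2 hpl
    exact ⟨w, hw⟩
  · right
    obtain ⟨g1, g2⟩ := unit_bounds (x := 2 * ((b : ℕ) : ℤ)) (y := 2 * ((a : ℕ) : ℤ) + 1 + per K)
      (by push_cast; exact hs.1) (by push_cast; exact hs.2) hlt
    rw [← hm] at g1 g2
    obtain ⟨g3, g4⟩ := unit_bounds (u := u) (x := 2 * ((d : ℕ) : ℤ) - k * per K)
      (y := 2 * ((c : ℕ) : ℤ) + 1 + per K - k * per K)
      (by push_cast; linarith) (by push_cast; linarith) hlt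
    rw [← hm] at g3 g4
    have hu : u ∈ Icc (m : ℝ) (m + 1) := ⟨hm2, hm3.le⟩
    set α := nd K (a, b) m - nd K (c, d) m with hα
    set β := nd K (a, b) (m + 1) - nd K (c, d) (m + 1) with hβ
    have hdiff : ∀ v ∈ Icc (m : ℝ) (m + 1), pl (nd K (a, b)) v - pl (nd K (c, d)) v =
        α + (β - α) * (v - m) := by
      intro v hv
      rw [pl_eq _ m hv, pl_eq _ m hv, hα, hβ]
      ring
    have h0 : α + (β - α) * (u - m) = 0 := by rw [← hdiff u hu, hpl, sub_self]
    have hdiff' : ∀ v ∈ Icc (m : ℝ) (m + 1), pl (nd K (a, b)) v - pl (nd K (c, d)) v =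
        (β - α) * (v - u) := by
      intro v hv
      rw [hdiff v hv]
      linarith
    have hne0 : β - α ≠ 0 := by
      intro hh
      have ha0 : α = 0 := by rw [hh] at h0; linarith
      have hb0 : β = 0 := by rw [ha0] at hh; linarith
      have n1 := node_ne h h' hne (j := m) g1 (by omega) (by linarith)
      have n2 := node_ne h h' hne (j := m + 1) (by omega) g2 (by linarith)
      rcases n1 with ⟨n1, n1'⟩ | ⟨n1, n1'⟩ <;> rcases n2 with ⟨n2, n2'⟩ | ⟨n2, n2'⟩
      · omega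
      · exact hne (by rw [n1, n2])
      · exact hne (by rw [n1, n2])
      · omega
    have hmemT : ∀ s ∈ Icc (ang K m) (ang K (m + 1)), (0 : ℂ) + (rho K (a, b) s : ℂ) *
        Complex.exp ((s : ℝ) * Complex.I) ∈ Arc K (a, b) := by
      intro s hs'
      obtain ⟨v, rfl⟩ := exists_ang K s
      simp only [Set.mem_Icc, ang_le] at hs'
      refine ⟨ang K v, ?_, rfl⟩
      simp only [Set.mem_Icc, ang_le]
      have q1 : (2 * ((b : ℕ) : ℤ) : ℝ) ≤ m := by exact_mod_cast g1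
      have q2 : (m : ℝ) + 1 ≤ 2 * ((a : ℕ) : ℝ) + 1 + per K := by exact_mod_cast g2
      push_cast at q1
      constructor <;> linarith [hs'.1, hs'.2]
    have hmemS : ∀ s ∈ Icc (ang K m) (ang K (m + 1)), (0 : ℂ) + (rho K (c, d) s : ℂ) *
        Complex.exp ((s : ℝ) * Complex.I) ∈ Arc K (c, d) := by
      intro s hs'
      obtain ⟨v, rfl⟩ := exists_ang K s
      simp only [Set.mem_Icc, ang_le] at hs'
      refine ⟨ang K (v + k * per K), ?_, ?_⟩
      · simp only [Set.mem_Icc, ang_le]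
        have q1 : (2 * ((d : ℕ) : ℤ) - k * per K : ℝ) ≤ m := by exact_mod_cast g3
        have q2 : (m : ℝ) + 1 ≤ 2 * ((c : ℕ) : ℝ) + 1 + per K - k * per K := by exact_mod_cast g4
        push_cast at q1
        constructor <;> linarith [hs'.1, hs'.2]
      · beta_reduce
        rw [exp_per, rho_per]
    have hx1 : ang K m < ang K u := ang_lt.2 hlt
    have hx2 : ang K u < ang K (m + 1) := ang_lt.2 hm3
    have hrho : rho K (a, b) (ang K u) = rho K (c, d) (ang K u) := by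
      rw [rho_ang, rho_ang, hpl]
    rcases lt_or_gt_of_ne hne0 with hneg | hpos
    · right
      refine ⟨ang K m, ang K u, ang K (m + 1), rho K (c, d), rho K (a, b), hx1, hx2,
        (rho_cont K _).continuousOn, (rho_cont K _).continuousOn,
        fun s hs' => ⟨rho_pos K _ _, rho_pos K _ _, hmemS s hs', hmemT s hs'⟩, ?_, hrho.symm,
        ?_, ?_⟩
      · rw [← hrho]
      · intro s hs'
        obtain ⟨v, rfl⟩ := exists_ang K s
        simp only [Set.mem_Ico, ang_le, ang_lt] at hs'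
        rw [rho_ang, rho_ang, Real.exp_lt_exp]
        have := hdiff' v ⟨hs'.1, by linarith [hs'.2]⟩
        nlinarith [hs'.2]
      · intro s hs'
        obtain ⟨v, rfl⟩ := exists_ang K s
        simp only [Set.mem_Ioc, ang_le, ang_lt] at hs'
        rw [rho_ang, rho_ang, Real.exp_lt_exp]
        have := hdiff' v ⟨by linarith [hs'.1], hs'.2⟩
        nlinarith [hs'.1]
    · left
      refine ⟨ang K m, ang K u, ang K (m + 1), rho K (a, b), rho K (c, d), hx1, hx2,
        (rho_cont K _).continuousOn, (rho_cont K _).continuousOn,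
        fun s hs' => ⟨rho_pos K _ _, rho_pos K _ _, hmemT s hs', hmemS s hs'⟩, rfl, hrho,
        ?_, ?_⟩
      · intro s hs'
        obtain ⟨v, rfl⟩ := exists_ang K s
        simp only [Set.mem_Ico, ang_le, ang_lt] at hs'
        rw [rho_ang, rho_ang, Real.exp_lt_exp]
        have := hdiff' v ⟨hs'.1, by linarith [hs'.2]⟩
        nlinarith [hs'.2]
      · intro s hs'
        obtain ⟨v, rfl⟩ := exists_ang K s
        simp only [Set.mem_Ioc, ang_le, ang_lt] at hs'
        rw [rho_ang, rho_ang, Real.exp_lt_exp]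
        have := hdiff' v ⟨by linarith [hs'.1], hs'.2⟩
        nlinarith [hs'.1]

/-- Two different edges do not have equal heights at two residues. -/
theorem both_ne {K a b c d : ℕ} (h : Ed K a b) (h' : Ed K c d) (hne : (a, b) ≠ (c, d)) {r r' : ℕ}
    (hrr : r ≠ r') (h1 : val K (a, b) r = val K (c, d) r)
    (h2 : val K (a, b) r' = val K (c, d) r') : False := by
  have g1 := val_eq h1
  have g2 := val_eq h2
  have n1 : (b = d ∧ r = 2 * b) ∨ (a = c ∧ r = 2 * a + 1) := by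
    by_contra hc
    push Not at hc
    exact hgt_ne h h' hne (fun ⟨x, y⟩ => hc.1 x y) (fun ⟨x, y⟩ => hc.2 x y) g1
  have n2 : (b = d ∧ r' = 2 * b) ∨ (a = c ∧ r' = 2 * a + 1) := by
    by_contra hc
    push Not at hc
    exact hgt_ne h h' hne (fun ⟨x, y⟩ => hc.1 x y) (fun ⟨x, y⟩ => hc.2 x y) g2
  rcases n1 with ⟨n1, n1'⟩ | ⟨n1, n1'⟩ <;> rcases n2 with ⟨n2, n2'⟩ | ⟨n2, n2'⟩
  · omega
  · exact hne (by rw [n1, n2])
  · exact hne (by rw [n1, n2])
  · omega

/-- Three edges, an even residue `r`, an odd residue `r'`: no common height inside. -/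
theorem triple_core {K : ℕ} {e f g : ℕ × ℕ} (he : Ed K e.1 e.2) (hf : Ed K f.1 f.2)
    (hg : Ed K g.1 g.2) (hef : e ≠ f) (hfg : f ≠ g) (heg : e ≠ g) {r r' : ℕ} (hr : r % 2 = 0)
    (hr' : r' % 2 = 1) {s t : ℝ} (hs : 0 < s) (ht : 0 < t)
    (h1 : s * val K e r + t * val K e r' = s * val K f r + t * val K f r')
    (h2 : s * val K f r + t * val K f r' = s * val K g r + t * val K g r') : False := by
  have hrr : r ≠ r' := by omega
  have hd : ∀ e f : ℕ × ℕ, Ed K e.1 e.2 → Ed K f.1 f.2 → e ≠ f →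
      s * val K e r + t * val K e r' = s * val K f r + t * val K f r' →
      val K e r' ≠ val K f r' := by
    intro e f he hf hef h1 hh
    have : (val K e r : ℝ) = val K f r := by
      rw [hh] at h1
      have := add_right_cancel h1
      exact mul_left_cancel₀ hs.ne' this
    exact both_ne (a := e.1) (b := e.2) (c := f.1) (d := f.2) he hf hef hrr
      (by exact_mod_cast this) hh
  have d1 := hd e f he hf hef h1
  have d2 := hd f g hf hg hfg h2
  have d3 := hd e g he hg heg (h1.trans h2)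
  rcases lt_or_gt_of_ne d1 with x12 | x12 <;> rcases lt_or_gt_of_ne d2 with x23 | x23 <;>
    rcases lt_or_gt_of_ne d3 with x13 | x13
  · exact conc hs ht h1 h2 x12 x23 (val_odd hr' x23) (val_even hf hr)
  · omega
  · exact conc hs ht (h1.trans h2) h2.symm x13 x23 (val_odd hr' x23) (val_even hg hr)
  · exact conc hs ht (h1.trans h2).symm h1 x13 x12 (val_odd hr' x12) (val_even he hr)
  · exact conc hs ht h1.symm (h1.trans h2) x12 x13 (val_odd hr' x13) (val_even he hr)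
  · exact conc hs ht h2 (h1.trans h2).symm x23 x13 (val_odd hr' x13) (val_even hg hr)
  · omega
  · exact conc hs ht h2.symm h1.symm x23 x12 (val_odd hr' x12) (val_even hf hr)

/-- No triple points. -/
theorem no_triple_point {K : ℕ} {a b c d p q : Fin (nn K)} (h : Ed K a b) (h' : Ed K c d)
    (h'' : Ed K p q) (hne : ((a : ℕ), (b : ℕ)) ≠ ((c : ℕ), (d : ℕ)))
    (hne' : ((c : ℕ), (d : ℕ)) ≠ ((p : ℕ), (q : ℕ)))
    (hne'' : ((a : ℕ), (b : ℕ)) ≠ ((p : ℕ), (q : ℕ))) {z : ℂ} (hz : z ∈ Arc K (a, b))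
    (hz' : z ∈ Arc K (c, d)) (hz'' : z ∈ Arc K (p, q)) : ∃ w, z = vp K w := by
  obtain ⟨s, hs, rfl⟩ := hz
  obtain ⟨u, rfl⟩ := exists_ang K s
  simp only [Set.mem_Icc, ang_le] at hs
  obtain ⟨k, -, -, hpl⟩ := common hz'
  obtain ⟨k', -, -, hpl'⟩ := common hz''
  have hbn := b.2
  have hab := h.lt
  have hpp := nn_lt_per K
  have hev := per_even K
  set m := ⌊u⌋ with hm
  have hm2 : (m : ℝ) ≤ u := Int.floor_le u
  have hm3 : u < m + 1 := Int.lt_floor_add_one u
  rcases hm2.lt_or_eq with hlt | heq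
  swap
  · rw [← heq] at hpl hs ⊢
    have g1 : 2 * ((b : ℕ) : ℤ) ≤ m := by
      have := hs.1
      exact_mod_cast this
    have g2 : m ≤ 2 * ((a : ℕ) : ℤ) + 1 + per K := by
      have := hs.2
      exact_mod_cast this
    obtain ⟨w, hw⟩ := node_vertex h h' hne g1 g2 hpl
    exact ⟨w, hw⟩
  · exfalso
    obtain ⟨g1, g2⟩ := unit_bounds (x := 2 * ((b : ℕ) : ℤ)) (y := 2 * ((a : ℕ) : ℤ) + 1 + per K)
      (by push_cast; exact hs.1) (by push_cast; exact hs.2) hlt
    rw [← hm] at g1 g2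
    have hu : u ∈ Icc (m : ℝ) (m + 1) := ⟨hm2, hm3.le⟩
    obtain ⟨r, hr1, hr2, hr3⟩ := nd_res K (j := m) (by omega) (by omega)
    obtain ⟨r', hr1', hr2', hr3'⟩ := nd_res K (j := m + 1) (by omega) (by omega)
    rw [pl_eq _ m hu, pl_eq _ m hu, hr3, hr3, hr3', hr3'] at hpl hpl'
    have t0 : 0 < u - m := by linarith
    have t1 : 0 < 1 - (u - m) := by linarith
    by_cases hme : m % 2 = 0
    · exact triple_core (e := (a, b)) (f := (c, d)) (g := (p, q)) h h' h'' hne hne' hne''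
        (r := r) (r' := r') (by omega) (by omega) t1 t0 (by linarith) (by linarith)
    · exact triple_core (e := (a, b)) (f := (c, d)) (g := (p, q)) h h' h'' hne hne' hne''
        (r := r') (r' := r) (by omega) (by omega) t0 t1 (by linarith) (by linarith)

/-- Two arcs change sides over an interval of directions. -/
def Cross (O : ℂ) (S T : Set ℂ) : Prop :=
  ∃ (x y : ℝ) (ρ σ : ℝ → ℝ), x < y ∧ ContinuousOn ρ (Icc x y) ∧ ContinuousOn σ (Icc x y) ∧
    (∀ s ∈ Icc x y, 0 < ρ s ∧ 0 < σ s ∧ O + (ρ s : ℂ) * Complex.exp (s * Complex.I) ∈ S ∧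
      O + (σ s : ℂ) * Complex.exp (s * Complex.I) ∈ T) ∧ ρ x < σ x ∧ σ y < ρ y

/-- Arcs which change sides meet. -/
theorem Cross.meet {O : ℂ} {S T : Set ℂ} (h : Cross O S T) : ¬ Disjoint S T := by
  obtain ⟨x, y, ρ, σ, hxy, hρ, hσ, hst, h1, h2⟩ := h
  have hc : ContinuousOn (fun s => ρ s - σ s) (Icc x y) := hρ.sub hσ
  have h0 : (0 : ℝ) ∈ Icc (ρ x - σ x) (ρ y - σ y) := ⟨by linarith, by linarith⟩
  obtain ⟨s, hs, hs0⟩ := intermediate_value_Icc hxy.le hc h0
  have he : ρ s = σ s := by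
    have : ρ s - σ s = 0 := hs0
    linarith
  rw [Set.not_disjoint_iff]
  obtain ⟨-, -, g1, g2⟩ := hst s hs
  refine ⟨_, g1, ?_⟩
  rw [he]
  exact g2

theorem pl_hgt {K r : ℕ} (e : ℕ × ℕ) (h : r < per K) :
    rho K e (ang K (r : ℝ)) = Real.exp (val K e r : ℝ) := by
  rw [rho_ang, pl_nat, nd_nat K _ h]

/-- Edges which are not in the overlapping position change sides near the right vertex. -/
theorem cross_far {K a b c d : ℕ} (h : Ed K a b) (h' : Ed K c d) (hac : a < c) (hbd : b ≠ d)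
    (hn : b ≤ c ∨ d < b) : Cross 0 (Arc K (c, d)) (Arc K (a, b)) := by
  have hb : b < nn K := h.lt'
  have hd : d < nn K := h'.lt'
  have ha := h.lt
  have hc := h'.lt
  have hp := nn_lt_per K
  have c1 : (a : ℝ) + 1 ≤ b := by exact_mod_cast ha
  have c2 : (b : ℝ) + 1 ≤ nn K := by exact_mod_cast hb
  have c3 : (2 : ℝ) * nn K < per K := by exact_mod_cast hp
  have c4 : (0 : ℝ) ≤ a := Nat.cast_nonneg a
  have c5 : (0 : ℝ) ≤ c := Nat.cast_nonneg c
  have c6 : (d : ℝ) + 1 ≤ nn K := by exact_mod_cast hd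
  refine ⟨ang K (2 * b), ang K (2 * b + 1), rho K (c, d), rho K (a, b), ?_,
    (rho_cont K _).continuousOn, (rho_cont K _).continuousOn, ?_, ?_, ?_⟩
  · rw [ang_lt]; linarith
  · intro s hs
    obtain ⟨u, rfl⟩ := exists_ang K s
    simp only [Set.mem_Icc, ang_le] at hs
    refine ⟨rho_pos K _ _, rho_pos K _ _, ?_, ?_⟩
    · rcases hn with hn | hn
      · have c7 : (b : ℝ) ≤ c := by exact_mod_cast hn
        refine ⟨ang K (u + ((1 : ℤ) : ℝ) * per K), ?_, ?_⟩
        · simp only [Set.mem_Icc, ang_le]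
          push_cast
          constructor <;> linarith [hs.1, hs.2]
        · beta_reduce
          rw [exp_per, rho_per]
      · have c7 : (d : ℝ) + 1 ≤ b := by exact_mod_cast hn
        refine ⟨ang K u, ?_, rfl⟩
        simp only [Set.mem_Icc, ang_le]
        constructor <;> linarith [hs.1, hs.2]
    · refine ⟨ang K u, ?_, rfl⟩
      simp only [Set.mem_Icc, ang_le]
      constructor <;> linarith [hs.1, hs.2]
  · have e3 : (2 * (b : ℝ)) = ((2 * b : ℕ) : ℝ) := by push_cast; ring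
    rw [e3, pl_hgt _ (by omega), pl_hgt _ (by omega), Real.exp_lt_exp]
    have : hgt K (c, d) (2 * b) < hgt K (a, b) (2 * b) := by
      rw [hgt_right h, hgt_pass hb (by exact fun h => hbd h.symm)]
      exact key_lt (K := K) (e := (c, d)) h'
    exact_mod_cast val_lt this
  · have e3 : (2 * (b : ℝ) + 1) = ((2 * b + 1 : ℕ) : ℝ) := by push_cast; ring
    rw [e3, pl_hgt _ (by omega), pl_hgt _ (by omega), Real.exp_lt_exp]
    obtain ⟨-, k2, -⟩ := key_col h hac
    have k3 : nn K * c ≤ key K (c, d) := Nat.le_add_right _ _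
    have : key K (a, b) < if (c, d).1 = b then nn K * b else key K (c, d) := by
      split_ifs with hcb
      · simp only at hcb
        rw [← hcb]; rw [hcb] at k2 ⊢; exact k2
      · omega
    have h3 : hgt K (a, b) (2 * b + 1) < hgt K (c, d) (2 * b + 1) := by
      rw [hgt_after hb, hgt_after hb, if_neg (by simp only; omega)]
      exact this
    exact_mod_cast val_lt h3

/-- Edges without a path change sides in the base sector. -/
theorem cross_base {K a b c d : ℕ} (h : Ed K a b) (h' : Ed K c d) (hac : a < c)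
    (hr : ¬ Reach K (a, b) (c, d)) : Cross 0 (Arc K (c, d)) (Arc K (a, b)) := by
  have hb : b < nn K := h.lt'
  have hd : d < nn K := h'.lt'
  have ha := h.lt
  have hc := h'.lt
  have hp := nn_lt_per K
  have k1 := key_lt (K := K) (e := (c, d)) h'
  have k1' := key_lt (K := K) (e := (a, b)) h
  obtain ⟨-, k2, -⟩ := key_col h hac
  have k3 : nn K * c ≤ key K (c, d) := Nat.le_add_right _ _
  have hpe : per K = 2 * nn K + nn K * nn K + 2 := rfl
  have c1 : (a : ℝ) + 1 ≤ b := by exact_mod_cast ha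
  have c2 : (b : ℝ) + 1 ≤ nn K := by exact_mod_cast hb
  have c4 : (0 : ℝ) ≤ a := Nat.cast_nonneg a
  have c5 : (0 : ℝ) ≤ c := Nat.cast_nonneg c
  have c6 : (d : ℝ) + 1 ≤ nn K := by exact_mod_cast hd
  have c8 : ((2 * nn K + nn K * nn K : ℕ) : ℝ) + 2 = per K := by rw [hpe]; push_cast; ring
  have c9 : (2 : ℝ) * nn K ≤ ((2 * nn K + key K (c, d) : ℕ) : ℝ) := by push_cast; linarith [
    (Nat.cast_nonneg (key K (c, d)) : (0 : ℝ) ≤ key K (c, d))]
  refine ⟨ang K ((2 * nn K + key K (c, d) : ℕ) : ℝ), ang K ((2 * nn K + nn K * nn K : ℕ) : ℝ),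
    rho K (c, d), rho K (a, b), ?_, (rho_cont K _).continuousOn, (rho_cont K _).continuousOn,
    ?_, ?_, ?_⟩
  · rw [ang_lt]
    exact_mod_cast (by omega : 2 * nn K + key K (c, d) < 2 * nn K + nn K * nn K)
  · intro s hs
    obtain ⟨u, rfl⟩ := exists_ang K s
    simp only [Set.mem_Icc, ang_le] at hs
    refine ⟨rho_pos K _ _, rho_pos K _ _, ⟨ang K u, ?_, rfl⟩, ⟨ang K u, ?_, rfl⟩⟩
    · simp only [Set.mem_Icc, ang_le]
      constructor <;> linarith [hs.1, hs.2]
    · simp only [Set.mem_Icc, ang_le]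
      constructor <;> linarith [hs.1, hs.2]
  · rw [pl_hgt _ (by omega), pl_hgt _ (by omega), Real.exp_lt_exp]
    have h3 : hgt K (c, d) (2 * nn K + key K (c, d)) < hgt K (a, b) (2 * nn K + key K (c, d)) := by
      rw [hgt_base h', hgt_base h', if_neg hr,
        if_pos (show Reach K (c, d) (c, d) from Relation.ReflTransGen.refl)]
      omega
    exact_mod_cast val_lt h3
  · rw [pl_hgt _ (by omega), pl_hgt _ (by omega), Real.exp_lt_exp]
    have h3 : hgt K (a, b) (2 * nn K + nn K * nn K) < hgt K (c, d) (2 * nn K + nn K * nn K) := by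
      rw [hgt_last, hgt_last]
      omega
    exact_mod_cast val_lt h3

/-- The position of two edges which do not change sides. -/
theorem special {K a b c d : ℕ} (h : Ed K a b) (h' : Ed K c d) (hac : a < c) (hbd : b ≠ d)
    (hn : ¬ Cross 0 (Arc K (c, d)) (Arc K (a, b))) : c < b ∧ b < d ∧ Ed K c b := by
  have h1 : ¬ (b ≤ c ∨ d < b) := fun hh => hn (cross_far h h' hac hbd hh)
  have h2 : Reach K (a, b) (c, d) := by
    by_contra hh
    exact hn (cross_base h h' hac hh)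
  exact ⟨by omega, by omega, corner_of_reach h (by omega) (by omega) h2⟩

/-- Three edges, sorted by their left vertices. -/
theorem triple {K a1 b1 a2 b2 a3 b3 : ℕ} (h1 : Ed K a1 b1) (h2 : Ed K a2 b2) (h3 : Ed K a3 b3)
    (h12 : a1 < a2) (h23 : a2 < a3) (n12 : b1 ≠ b2) (n23 : b2 ≠ b3) (n13 : b1 ≠ b3)
    (c12 : ¬ Cross 0 (Arc K (a2, b2)) (Arc K (a1, b1)))
    (c23 : ¬ Cross 0 (Arc K (a3, b3)) (Arc K (a2, b2)))
    (c13 : ¬ Cross 0 (Arc K (a3, b3)) (Arc K (a1, b1))) : False :=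
  no_triple h2 (special h1 h2 h12 n12 c12) (special h2 h3 h23 n23 c23)
    (special h1 h3 (h12.trans h23) n13 c13) h23

/-- Among three edges two have a common end or change sides. -/
theorem three {K : ℕ} {e f g : Sym2 (Vt K)} (he : e ∈ (Gr K).edgeSet) (hf : f ∈ (Gr K).edgeSet)
    (hg : g ∈ (Gr K).edgeSet)
    (H : ∀ x ∈ [e, f, g], ∀ y ∈ [e, f, g], x ≠ y → (¬ ∃ w, w ∈ x ∧ w ∈ y) ∧
      ¬ Cross 0 (Arc K (pr x)) (Arc K (pr y))) (hef : e ≠ f) (hfg : f ≠ g) (heg : e ≠ g) :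
    False := by
  obtain ⟨a1, b1, rfl, h1⟩ := mem_edge.1 he
  obtain ⟨a2, b2, rfl, h2⟩ := mem_edge.1 hf
  obtain ⟨a3, b3, rfl, h3⟩ := mem_edge.1 hg
  obtain ⟨n12, c12⟩ := H _ (by simp) _ (by simp) hef
  obtain ⟨-, c21⟩ := H _ (by simp) _ (by simp) hef.symm
  obtain ⟨n23, c23⟩ := H _ (by simp) _ (by simp) hfg
  obtain ⟨-, c32⟩ := H _ (by simp) _ (by simp) hfg.symm
  obtain ⟨n13, c13⟩ := H _ (by simp) _ (by simp) heg
  obtain ⟨-, c31⟩ := H _ (by simp) _ (by simp) heg.symm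
  rw [pr_mk, pr_mk] at c12 c21 c23 c32 c13 c31
  have ha12 : (a1 : ℕ) ≠ a2 := fun h => n12 ⟨Sum.inl a1, Sym2.mem_mk_left _ _, by
    rw [Fin.ext h]; exact Sym2.mem_mk_left _ _⟩
  have hb12 : (b1 : ℕ) ≠ b2 := fun h => n12 ⟨Sum.inr b1, Sym2.mem_mk_right _ _, by
    rw [Fin.ext h]; exact Sym2.mem_mk_right _ _⟩
  have ha23 : (a2 : ℕ) ≠ a3 := fun h => n23 ⟨Sum.inl a2, Sym2.mem_mk_left _ _, by
    rw [Fin.ext h]; exact Sym2.mem_mk_left _ _⟩
  have hb23 : (b2 : ℕ) ≠ b3 := fun h => n23 ⟨Sum.inr b2, Sym2.mem_mk_right _ _, by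
    rw [Fin.ext h]; exact Sym2.mem_mk_right _ _⟩
  have ha13 : (a1 : ℕ) ≠ a3 := fun h => n13 ⟨Sum.inl a1, Sym2.mem_mk_left _ _, by
    rw [Fin.ext h]; exact Sym2.mem_mk_left _ _⟩
  have hb13 : (b1 : ℕ) ≠ b3 := fun h => n13 ⟨Sum.inr b1, Sym2.mem_mk_right _ _, by
    rw [Fin.ext h]; exact Sym2.mem_mk_right _ _⟩
  rcases lt_or_gt_of_ne ha12 with x12 | x12 <;> rcases lt_or_gt_of_ne ha23 with x23 | x23 <;>
    rcases lt_or_gt_of_ne ha13 with x13 | x13
  · exact triple h1 h2 h3 x12 x23 hb12 hb23 hb13 c21 c32 c31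
  · omega
  · exact triple h1 h3 h2 x13 x23 hb13 hb23.symm hb12 c31 c23 c21
  · exact triple h3 h1 h2 x13 x12 hb13.symm hb12 hb23.symm c13 c21 c23
  · exact triple h2 h1 h3 x12 x13 hb12.symm hb13 hb23 c12 c31 c32
  · exact triple h2 h3 h1 x23 x13 hb23 hb13.symm hb12.symm c32 c13 c12
  · omega
  · exact triple h3 h2 h1 x23 x12 hb23.symm hb12.symm hb13.symm c23 c12 c13

/-- The ends of an edge lie on its arc. -/
theorem end_mem {K : ℕ} {e : Sym2 (Vt K)} (he : e ∈ (Gr K).edgeSet) {w : Vt K} (hw : w ∈ e) :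
    vp K w ∈ Arc K (pr e) := by
  obtain ⟨a, b, rfl, h⟩ := mem_edge.1 he
  rw [pr_mk]
  obtain ⟨h1, -⟩ := range_lt h
  rcases Sym2.mem_iff.1 hw with rfl | rfl
  · exact ⟨_, ⟨h1.le, le_rfl⟩, (left_end h).symm⟩
  · exact ⟨_, ⟨le_rfl, h1.le⟩, (right_end h).symm⟩

theorem vp_inj (K : ℕ) : Function.Injective (vp K) := by
  have key : ∀ (r r' : ℝ) (x y : ℕ), 0 < r → 0 < r' → x < per K → y < per K →
      (0 : ℂ) + (r : ℂ) * Complex.exp ((ang K (x : ℝ) : ℝ) * Complex.I) =
      (0 : ℂ) + (r' : ℂ) * Complex.exp ((ang K (y : ℝ) : ℝ) * Complex.I) → x = y := by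
    intro r r' x y hr hr' hx hy h
    obtain ⟨-, k, hk⟩ := polar_mod hr hr' h
    have h1 : (x : ℤ) = y + k * per K := by exact_mod_cast hk
    have h2 : (x : ℤ) % per K = (y : ℤ) % per K := by rw [h1, Int.add_mul_emod_self_right]
    rw [Int.emod_eq_of_lt (by omega) (by omega), Int.emod_eq_of_lt (by omega) (by omega)] at h2
    exact_mod_cast h2
  have hp := nn_lt_per K
  have e3 : ∀ x : ℕ, (2 * (x : ℝ) + 1) = ((2 * x + 1 : ℕ) : ℝ) := by intro x; push_cast; ring
  have e4 : ∀ x : ℕ, (2 * (x : ℝ)) = ((2 * x : ℕ) : ℝ) := by intro x; push_cast; ring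
  rintro (a | b) (c | d) h <;> simp only [vp] at h
  · rw [e3 a, e3 c] at h
    have := key _ _ _ _ (Real.exp_pos _) (Real.exp_pos _) (by omega) (by omega) h
    rw [show a = c from Fin.ext (by omega)]
  · rw [e3 a, e4 d] at h
    have := key _ _ (2 * (a : ℕ) + 1) (2 * (d : ℕ)) (Real.exp_pos _) (Real.exp_pos _) (by omega)
      (by omega) h
    omega
  · rw [e3 c, e4 b] at h
    have := key _ _ (2 * (b : ℕ)) (2 * (c : ℕ) + 1) (Real.exp_pos _) (Real.exp_pos _) (by omega)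
      (by omega) h
    omega
  · rw [e4 b, e4 d] at h
    have := key _ _ _ _ (Real.exp_pos _) (Real.exp_pos _) (by omega) (by omega) h
    rw [show b = d from Fin.ext (by omega)]

/-- The number of edges. -/
theorem card_edges (K : ℕ) : (Gr K).edgeSet.ncard = (K + 1) * 2 ^ K := by
  have hpar : ∀ (k : Fin (K + 1)) (m : Fin (2 ^ K)),
      Ed K (2 ^ ((k : ℕ) + 1) * ((m : ℕ) / 2 ^ (k : ℕ)) + (m : ℕ) % 2 ^ (k : ℕ))
        (2 ^ ((k : ℕ) + 1) * ((m : ℕ) / 2 ^ (k : ℕ)) + (m : ℕ) % 2 ^ (k : ℕ) + 2 ^ (k : ℕ)) :=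
    fun k m => ⟨k, Nat.lt_succ_iff.1 k.2, m, m.2, rfl, rfl⟩
  let φ : Fin (K + 1) × Fin (2 ^ K) → Sym2 (Vt K) := fun p =>
    s(Sum.inl ⟨_, (hpar p.1 p.2).lt.trans (hpar p.1 p.2).lt'⟩, Sum.inr ⟨_, (hpar p.1 p.2).lt'⟩)
  have hφ : Function.Injective φ := by
    rintro ⟨k, m⟩ ⟨k', m'⟩ h
    have h1 : pr (φ (k, m)) = pr (φ (k', m')) := by rw [h]
    simp only [φ, pr_mk, Prod.mk.injEq] at h1
    obtain ⟨h1, h2⟩ := h1
    have h3 : 2 ^ (k : ℕ) = 2 ^ (k' : ℕ) := by omega
    have h4 : (k : ℕ) = k' := Nat.pow_right_injective le_rfl h3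
    have h5 : k = k' := Fin.ext h4
    subst h5
    have hk : 0 < 2 ^ (k : ℕ) := by positivity
    have hm := Nat.mod_lt (m : ℕ) hk
    have hm' := Nat.mod_lt (m' : ℕ) hk
    have h6 : (m : ℕ) / 2 ^ (k : ℕ) = (m' : ℕ) / 2 ^ (k : ℕ) := by
      have a1 := div_low (q := (m : ℕ) / 2 ^ (k : ℕ)) hm
      have a2 := div_low (q := (m' : ℕ) / 2 ^ (k : ℕ)) hm'
      rw [h1, a2] at a1
      omega
    have h7 : (m : ℕ) % 2 ^ (k : ℕ) = (m' : ℕ) % 2 ^ (k : ℕ) := by
      rw [h6] at h1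
      omega
    have h8 : (m : ℕ) = m' := by
      rw [← Nat.div_add_mod (m : ℕ) (2 ^ (k : ℕ)), ← Nat.div_add_mod (m' : ℕ) (2 ^ (k : ℕ)), h6, h7]
    rw [Fin.ext h8]
  have himg : (Gr K).edgeSet = φ '' Set.univ := by
    ext e
    constructor
    · intro he
      obtain ⟨a, b, rfl, k, hk, m, hm, ha, hb⟩ := mem_edge.1 he
      refine ⟨(⟨k, Nat.lt_succ_iff.2 hk⟩, ⟨m, hm⟩), mem_univ _, ?_⟩
      simp only [φ]
      congr 3
      · exact ha.symm
      · rw [hb, ha]
    · rintro ⟨p, -, rfl⟩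
      exact mem_edge.2 ⟨_, _, rfl, hpar p.1 p.2⟩
  rw [himg, Set.ncard_image_of_injective _ hφ, Set.ncard_univ, Nat.card_eq_fintype_card]
  simp

end Pool.Agent.CLow2
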