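import Pool.Agent.Hhelper93.CLow.Comb
import Pool.Agent.Hhelper93.CLow.PL

/-!
# The heights of the edges at the nodes

The order of the heights is given by `hgt`; the height itself is a power with the exponent `hgt`,
of `2` at the even nodes and of a large number at the odd nodes, so that no three edges meet in one
point.
-/

set_option autoImplicit false

namespace Pool.Agent.CLow2

open Set
open Pool.Agent.CLow
open scoped Classical

/-- The number of vertices of one kind. -/
def nn (K : ℕ) : ℕ := 2 ^ (K + 1)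

/-- The period. -/
def per (K : ℕ) : ℕ := 2 * nn K + nn K * nn K + 2

/-- The default height of an edge. -/
def key (K : ℕ) (e : ℕ × ℕ) : ℕ := nn K * e.1 + e.2

/-- The exponent of the height of the edge `e` at the node `r`. -/
noncomputable def hgt (K : ℕ) (e : ℕ × ℕ) (r : ℕ) : ℕ :=
  if r < 2 * nn K then
    if r = 2 * e.2 then nn K * nn K else if r = 2 * e.1 + 1 then nn K * e.1 else key K e
  else if 2 * nn K + nn K * nn K ≤ r then key K e
  else if Reach K e ((r - 2 * nn K) / nn K, (r - 2 * nn K) % nn K) then key K e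
  else key K e + nn K * nn K

theorem key_lt {K : ℕ} {e : ℕ × ℕ} (h : Ed K e.1 e.2) : key K e < nn K * nn K := by
  have h1 : e.2 < nn K := h.lt'
  have h2 := h.lt
  have h3 : nn K * (e.1 + 1) ≤ nn K * nn K := Nat.mul_le_mul_left _ (by omega)
  rw [key]
  rw [mul_add] at h3
  omega

theorem hgt_lt {K : ℕ} {e : ℕ × ℕ} (h : Ed K e.1 e.2) (r : ℕ) : hgt K e r < 2 * (nn K * nn K) := by
  have h0 : 0 < nn K := by unfold nn; positivity
  have h0' : 0 < nn K * nn K := Nat.mul_pos h0 h0
  have h1 : e.2 < nn K := h.lt'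
  have h2 := h.lt
  have h3 := key_lt h
  have h4 : nn K * e.1 ≤ nn K * nn K := Nat.mul_le_mul_left _ (by omega)
  unfold hgt
  split_ifs <;> omega

theorem key_row {K a b b' : ℕ} (h : b < b') : key K (a, b) < key K (a, b') := by
  simp only [key]; omega

theorem key_col {K a a' b : ℕ} (h : Ed K a b) (h' : a < a') :
    nn K * a + b < nn K * a' ∧ key K (a, b) < nn K * a' ∧ key K (a, b) < key K (a', b) := by
  have h1 : b < nn K := h.lt'
  have h3 : nn K * (a + 1) ≤ nn K * a' := Nat.mul_le_mul_left _ (by omega)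
  simp only [key]
  rw [mul_add] at h3
  refine ⟨?_, ?_, ?_⟩ <;> omega

theorem hgt_row {K a b b' : ℕ} (h : Ed K a b) (h' : Ed K a b') (hb : b < b') {r : ℕ}
    (hr : 2 * b' ≤ r ∨ r ≤ 2 * a + 1) (hr1 : r ≠ 2 * a + 1) :
    hgt K (a, b) r < hgt K (a, b') r := by
  have h1 : b < nn K := h.lt'
  have h1' : b' < nn K := h'.lt'
  have h2 := h.lt
  have h3 := key_row (K := K) (a := a) hb
  have h4 := key_lt (K := K) (e := (a, b)) h
  have hmono : ∀ g, Reach K (a, b') g → Reach K (a, b) g := fun g hg =>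
    Relation.ReflTransGen.head (show Step K (a, b) (a, b') from ⟨h, h', Or.inl ⟨rfl, hb⟩⟩) hg
  unfold hgt
  dsimp only
  split_ifs <;> first | omega | exact absurd (hmono _ ‹_›) ‹_›

theorem hgt_col {K a a' b : ℕ} (h : Ed K a b) (h' : Ed K a' b) (ha : a < a') {r : ℕ}
    (hr1 : r ≠ 2 * b) :
    hgt K (a, b) r < hgt K (a', b) r := by
  have h1 : b < nn K := h.lt'
  have h2 := h.lt
  have h2' := h'.lt
  obtain ⟨-, h3, h3'⟩ := key_col h ha
  have h4 := key_lt (K := K) (e := (a, b)) h
  have h5 : nn K * a ≤ key K (a, b) := Nat.le_add_right _ _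
  have hmono : ∀ g, Reach K (a', b) g → Reach K (a, b) g := fun g hg =>
    Relation.ReflTransGen.head (show Step K (a, b) (a', b) from ⟨h, h', Or.inr ⟨rfl, ha⟩⟩) hg
  unfold hgt
  dsimp only
  split_ifs <;> first | omega | exact absurd (hmono _ ‹_›) ‹_›

theorem hgt_right {K a b : ℕ} (h : Ed K a b) : hgt K (a, b) (2 * b) = nn K * nn K := by
  have h1 : b < nn K := h.lt'
  unfold hgt
  dsimp only
  rw [if_pos (by omega), if_pos rfl]

theorem hgt_left {K a b : ℕ} (h : Ed K a b) : hgt K (a, b) (2 * a + 1) = nn K * a := by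
  have h1 : b < nn K := h.lt'
  have h2 := h.lt
  unfold hgt
  dsimp only
  rw [if_pos (by omega), if_neg (by omega), if_pos rfl]

theorem key_unique {K x y z w : ℕ} (hy : y < nn K) (hw : w < nn K)
    (he : nn K * x + y = nn K * z + w) : x = z ∧ y = w := by
  have e1 : x = z := by
    rcases lt_trichotomy x z with hh | hh | hh
    · have := Nat.mul_le_mul_left (nn K) (show x + 1 ≤ z from hh)
      rw [mul_add] at this; omega
    · exact hh
    · have := Nat.mul_le_mul_left (nn K) (show z + 1 ≤ x from hh)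
      rw [mul_add] at this; omega
  subst e1
  exact ⟨rfl, by omega⟩

/-- Different edges have different heights, except for a common vertex. -/
theorem hgt_ne {K a b c d : ℕ} (h : Ed K a b) (h' : Ed K c d) (hne : (a, b) ≠ (c, d)) {r : ℕ}
    (hb : ¬ (b = d ∧ r = 2 * b)) (ha : ¬ (a = c ∧ r = 2 * a + 1)) :
    hgt K (a, b) r ≠ hgt K (c, d) r := by
  have h1 : b < nn K := h.lt'
  have h1' : d < nn K := h'.lt'
  have h2 := h.lt
  have h2' := h'.lt
  have h4 := key_lt (K := K) (e := (a, b)) h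
  have h4' := key_lt (K := K) (e := (c, d)) h'
  have hkey : key K (a, b) ≠ key K (c, d) := by
    intro he
    obtain ⟨e1, e2⟩ := key_unique (x := a) (z := c) h1 h1' he
    exact hne (by rw [e1, e2])
  have hka : key K (a, b) ≠ nn K * c := by
    intro he
    have := key_unique (K := K) (x := a) (y := b) (z := c) (w := 0) h1 (by omega)
      (by simpa [key] using he)
    omega
  have hkc : nn K * a ≠ key K (c, d) := by
    intro he
    have := key_unique (K := K) (x := a) (y := 0) (z := c) (w := d) (by omega) h1'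
      (by simpa [key] using he)
    omega
  have hla : nn K * a ≤ key K (a, b) := Nat.le_add_right _ _
  have hlc : nn K * c ≤ key K (c, d) := Nat.le_add_right _ _
  unfold hgt
  dsimp only
  split_ifs <;> omega

theorem hgt_pass {K b : ℕ} {e : ℕ × ℕ} (hb : b < nn K) (h : e.2 ≠ b) :
    hgt K e (2 * b) = key K e := by
  unfold hgt
  rw [if_pos (by omega), if_neg (by omega), if_neg (by omega)]

theorem hgt_after {K b : ℕ} {e : ℕ × ℕ} (hb : b < nn K) :
    hgt K e (2 * b + 1) = if e.1 = b then nn K * b else key K e := by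
  unfold hgt
  rw [if_pos (by omega), if_neg (by omega)]
  by_cases h : e.1 = b
  · rw [if_pos (by omega), if_pos h, h]
  · rw [if_neg (by omega), if_neg h]

theorem hgt_last {K : ℕ} {e : ℕ × ℕ} : hgt K e (2 * nn K + nn K * nn K) = key K e := by
  unfold hgt
  rw [if_neg (by omega), if_pos le_rfl]

theorem hgt_base {K : ℕ} {e g : ℕ × ℕ} (hg : Ed K g.1 g.2) :
    hgt K e (2 * nn K + key K g) =
      if Reach K e g then key K e else key K e + nn K * nn K := by
  have h1 := key_lt hg
  have h2 : g.2 < nn K := hg.lt'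
  have h3 : (2 * nn K + key K g - 2 * nn K) / nn K = g.1 := by
    rw [Nat.add_sub_cancel_left, key, Nat.mul_add_div (by omega), Nat.div_eq_of_lt h2, add_zero]
  have h4 : (2 * nn K + key K g - 2 * nn K) % nn K = g.2 := by
    rw [Nat.add_sub_cancel_left, key, Nat.mul_add_mod, Nat.mod_eq_of_lt h2]
  unfold hgt
  rw [if_neg (by omega), if_neg (by omega), h3, h4]

/-- A number which is larger than all heights at the even nodes. -/
def big (K : ℕ) : ℕ := 2 ^ (2 * (nn K * nn K))

/-- The base of the powers. -/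
def bs (K : ℕ) (r : ℕ) : ℕ := if r % 2 = 0 then 2 else big K + 1

theorem one_lt_bs (K r : ℕ) : 1 < bs K r := by
  have : 0 < big K := by unfold big; positivity
  unfold bs
  split_ifs <;> omega

/-- The height. -/
noncomputable def val (K : ℕ) (e : ℕ × ℕ) (r : ℕ) : ℕ := bs K r ^ hgt K e r

theorem val_lt {K : ℕ} {e f : ℕ × ℕ} {r : ℕ} (h : hgt K e r < hgt K f r) :
    val K e r < val K f r := Nat.pow_lt_pow_right (one_lt_bs K r) h

theorem val_eq {K : ℕ} {e f : ℕ × ℕ} {r : ℕ} (h : val K e r = val K f r) :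
    hgt K e r = hgt K f r := Nat.pow_right_injective (one_lt_bs K r) h

theorem val_pos (K : ℕ) (e : ℕ × ℕ) (r : ℕ) : 0 < val K e r :=
  Nat.pow_pos (by have := one_lt_bs K r; omega)

/-- The heights at the even nodes are small. -/
theorem val_even {K : ℕ} {e : ℕ × ℕ} (h : Ed K e.1 e.2) {r : ℕ} (hr : r % 2 = 0) :
    val K e r < big K := by
  unfold val bs big
  rw [if_pos hr]
  exact Nat.pow_lt_pow_right (by norm_num) (hgt_lt h r)

/-- The heights at the odd nodes are far from each other. -/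
theorem val_odd {K : ℕ} {e f : ℕ × ℕ} {r : ℕ} (hr : r % 2 = 1) (h : val K e r < val K f r) :
    (big K + 1) * val K e r ≤ val K f r := by
  have hb : bs K r = big K + 1 := by unfold bs; rw [if_neg (by omega)]
  have h1 : hgt K e r < hgt K f r := (Nat.pow_lt_pow_iff_right (one_lt_bs K r)).1 h
  unfold val
  rw [hb, ← pow_succ']
  exact Nat.pow_le_pow_right (by omega) h1

/-- The height at an integer, periodic. -/
noncomputable def nd (K : ℕ) (e : ℕ × ℕ) (j : ℤ) : ℝ := (val K e (j % (per K : ℤ)).toNat : ℝ)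

theorem per_pos (K : ℕ) : 0 < per K := by unfold per; omega

theorem per_even (K : ℕ) : per K % 2 = 0 := by
  have h : nn K = 2 * 2 ^ K := by unfold nn; rw [pow_succ, mul_comm]
  have h2 : nn K * nn K = 2 * (2 ^ K * nn K) := by
    conv_lhs => rw [h]
    rw [h]; ring
  unfold per
  omega

theorem nd_period (K : ℕ) (e : ℕ × ℕ) (j : ℤ) : nd K e (j + (per K : ℤ)) = nd K e j := by
  unfold nd
  rw [Int.add_emod_right]

theorem nd_nat (K : ℕ) (e : ℕ × ℕ) {r : ℕ} (h : r < per K) : nd K e (r : ℤ) = val K e r := by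
  unfold nd
  rw [Int.emod_eq_of_lt (by omega) (by exact_mod_cast h), Int.toNat_natCast]

theorem nd_nat' (K : ℕ) (e : ℕ × ℕ) {r : ℕ} (h : r < per K) :
    nd K e ((r : ℤ) + (per K : ℤ)) = val K e r := by
  rw [nd_period, nd_nat K e h]

/-- The residue of an integer. -/
theorem nd_res (K : ℕ) {j : ℤ} (h0 : 0 ≤ j) (h1 : j < 2 * (per K : ℤ)) :
    ∃ r : ℕ, r < per K ∧ (j = r ∨ j = r + per K) ∧ ∀ e, nd K e j = val K e r := by
  have hp := per_pos K
  by_cases h : j < per K
  · refine ⟨j.toNat, by omega, Or.inl (by omega), fun e => ?_⟩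
    rw [← nd_nat K e (show j.toNat < per K by omega), Int.toNat_of_nonneg h0]
  · refine ⟨(j - per K).toNat, by omega, Or.inr (by omega), fun e => ?_⟩
    rw [← nd_nat' K e (show (j - per K).toNat < per K by omega),
      Int.toNat_of_nonneg (by omega)]
    congr 1
    ring

/-- Three lines are not concurrent. -/
theorem conc {x1 x2 x3 y1 y2 y3 B : ℕ} {s t : ℝ} (hs : 0 < s) (ht : 0 < t)
    (h12 : s * x1 + t * y1 = s * x2 + t * y2) (h23 : s * x2 + t * y2 = s * x3 + t * y3)
    (hy : y1 < y2) (hy' : y2 < y3) (hB : (B + 1) * y2 ≤ y3) (hx : x2 < B) : False := by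
  have hyR : (y1 : ℝ) + 1 ≤ y2 := by exact_mod_cast hy
  have hyR' : (y2 : ℝ) + 1 ≤ y3 := by exact_mod_cast hy'
  have e1 : s * ((x1 : ℝ) - x2) = t * ((y2 : ℝ) - y1) := by linarith
  have e2 : s * ((x2 : ℝ) - x3) = t * ((y3 : ℝ) - y2) := by linarith
  have p1 : 0 < (x1 : ℝ) - x2 := by
    have : 0 < s * ((x1 : ℝ) - x2) := by rw [e1]; exact mul_pos ht (by linarith)
    exact (mul_pos_iff_of_pos_left hs).1 this
  have p1' : x2 < x1 := by
    have : (x2 : ℝ) < x1 := by linarith
    exact_mod_cast this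
  have p1R : (x2 : ℝ) + 1 ≤ x1 := by exact_mod_cast p1'
  have e3 : ((x1 : ℝ) - x2) * ((y3 : ℝ) - y2) = ((x2 : ℝ) - x3) * ((y2 : ℝ) - y1) := by
    have h1 : (s * ((x1 : ℝ) - x2)) * (t * ((y3 : ℝ) - y2)) =
        (t * ((y2 : ℝ) - y1)) * (s * ((x2 : ℝ) - x3)) := by rw [e1, e2]
    have hst : s * t ≠ 0 := (mul_pos hs ht).ne'
    apply mul_left_cancel₀ hst
    linarith
  have hBR : ((B : ℝ) + 1) * y2 ≤ y3 := by exact_mod_cast hB
  have hxR : (x2 : ℝ) + 1 ≤ B := by exact_mod_cast hx
  have hy1 : (0 : ℝ) ≤ y1 := Nat.cast_nonneg _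
  have hx3 : (0 : ℝ) ≤ x3 := Nat.cast_nonneg _
  have g1 : (B : ℝ) * y2 ≤ ((x1 : ℝ) - x2) * ((y3 : ℝ) - y2) := by
    nlinarith
  have g2 : ((x2 : ℝ) - x3) * ((y2 : ℝ) - y1) ≤ (x2 : ℝ) * y2 := by
    have hx2 : (0 : ℝ) ≤ x2 := Nat.cast_nonneg _
    calc ((x2 : ℝ) - x3) * ((y2 : ℝ) - y1) ≤ (x2 : ℝ) * ((y2 : ℝ) - y1) :=
          mul_le_mul_of_nonneg_right (by linarith) (by linarith)
      _ ≤ (x2 : ℝ) * y2 := mul_le_mul_of_nonneg_left (by linarith) hx2
  nlinarith

end Pool.Agent.CLow2
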